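import Mathlib
import Pool.Agent.H19.Large

set_option autoImplicit false

namespace Pool.Agent.Results.MP_68822d_al.KappaLarge

universe u

open scoped Pointwise
open Pool.Agent.H19.Large

/-- Every infinite group `G` has a partition into exactly `|G|` cells, each of which is both left
and right `|G|`-large. -/
theorem result (G : Type u) [Group G] [Infinite G] :
    ∃ P : Set (Set G), Setoid.IsPartition P ∧ Cardinal.mk P = Cardinal.mk G ∧
      ∀ A ∈ P,
        (∃ F : Set G, Cardinal.mk F < Cardinal.mk G ∧ F * A = Set.univ) ∧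
        (∃ F : Set G, Cardinal.mk F < Cardinal.mk G ∧ A * F = Set.univ) := by
  rcases (Cardinal.aleph0_le_mk G).eq_or_lt with h0 | h0
  · obtain ⟨χ, hχ⟩ := countable_case G
    refine assemble _ (fun g => ULift.up.{u} (χ g)) (by simpa using h0) fun n => ?_
    obtain ⟨⟨F, h1, h2⟩, ⟨F', h3, h4⟩⟩ := hχ n.down
    refine ⟨⟨F, h0 ▸ h1.lt_aleph0, fun g => ?_⟩, ⟨F', h0 ▸ h3.lt_aleph0, fun g => ?_⟩⟩
    · obtain ⟨f, hf, a, ha, e⟩ := h2 g
      exact ⟨f, hf, a, by simp [ha], e⟩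
    · obtain ⟨f, hf, a, ha, e⟩ := h4 g
      exact ⟨f, hf, a, by simp [ha], e⟩
  · obtain ⟨J, χ, hJ, h⟩ := uncountable_case G h0
    refine assemble _ χ hJ fun j => ?_
    obtain ⟨⟨F, a1, a2⟩, ⟨F', a3, a4⟩⟩ := h j
    exact ⟨⟨F, a1.le_aleph0.trans_lt h0, a2⟩, ⟨F', a3.le_aleph0.trans_lt h0, a4⟩⟩

end Pool.Agent.Results.MP_68822d_al.KappaLarge
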